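import Pool.Agent.W147.LF.Stm

set_option autoImplicit false

namespace Pool.Agent.W926.LF

open Polynomial Pool.Agent.W147.LF

theorem val {K : Type} [Field K] (b : K[X]) (hb : b.Monic) (r : AlgebraicClosure K) :
    aeval r b = ((b.aroots (AlgebraicClosure K)).map (fun s => r - s)).prod := by
  have hs : (b.map (algebraMap K (AlgebraicClosure K))).Splits := IsAlgClosed.splits _
  exact hs.aeval_eq_prod_aroots_of_monic hb r

theorem cardR {K : Type} [Field K] (b : K[X]) :
    (b.aroots (AlgebraicClosure K)).card = b.natDegree := by
  have hs : (b.map (algebraMap K (AlgebraicClosure K))).Splits := IsAlgClosed.splits _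
  rw [aroots_def, ← hs.natDegree_eq_card_roots, natDegree_map]

theorem t_Rswap : S_Rswap := by
  intro K _ a b ha hb
  unfold R
  rw [Multiset.map_congr rfl (fun r _ => val b hb r), Multiset.map_congr rfl (fun r _ => val a ha r)]
  rw [Multiset.prod_map_prod_map (b.aroots (AlgebraicClosure K)) (a.aroots (AlgebraicClosure K))]
  have h : ∀ r : AlgebraicClosure K, ((b.aroots (AlgebraicClosure K)).map (fun s => s - r)).prod
      = (-1) ^ b.natDegree * ((b.aroots (AlgebraicClosure K)).map (fun s => r - s)).prod := by
    intro r
    rw [← cardR b, ← Multiset.prod_replicate, ← Multiset.map_const', ← Multiset.prod_map_mul]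
    congr 1
    apply Multiset.map_congr rfl
    intro s _
    ring
  simp_rw [h]
  rw [Multiset.prod_map_mul, Multiset.map_const', Multiset.prod_replicate, cardR a, ← pow_mul,
    ← mul_assoc, mul_comm b.natDegree a.natDegree, ← pow_add, ← two_mul, pow_mul]
  simp

end Pool.Agent.W926.LF
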